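import Pool.Agent.helper33.AG.Spec

/-!
# Row eav:MS
-/

set_option autoImplicit false

namespace Pool.Agent.AG

open N1f72dd46 Filter MeasureTheory Set Pool.Agent.QZ

theorem MS : MS_stmt := by
  intro B X c hX
  set B' : Set ℝ := toMeasurable volume B with hB'
  have hBm : MeasurableSet B' := measurableSet_toMeasurable volume B
  have hBv : volume B' = volume B := measure_toMeasurable B
  set E : Set ℝ := {t : ℝ | t + c ∈ B'} ∩ Icc (Real.log X) (Real.log (2 * X)) with hE
  have hEm : MeasurableSet E := by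
    refine MeasurableSet.inter ?_ measurableSet_Icc
    exact (measurable_add_const c) hBm
  have hsub : {x : ℝ | x ∈ Icc X (2 * X) ∧ Real.log x + c ∈ B} ⊆ Real.exp '' E := by
    rintro x ⟨hx, hxB⟩
    have hx0 : 0 < x := lt_of_lt_of_le hX hx.1
    refine ⟨Real.log x, ⟨subset_toMeasurable volume B hxB, ?_⟩, Real.exp_log hx0⟩
    exact ⟨Real.log_le_log hX hx.1, Real.log_le_log hx0 hx.2⟩
  have hEvol : volume E ≤ volume B := by
    calc volume E ≤ volume ((fun t => t + c) ⁻¹' B') := measure_mono (fun t ht => ht.1)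
      _ = volume B' := measure_preimage_add_right volume c B'
      _ = volume B := hBv
  have himg : volume (Real.exp '' E) = ∫⁻ t in E, ENNReal.ofReal |Real.exp t| := by
    have h1 := lintegral_image_eq_lintegral_abs_deriv_mul hEm
      (f := Real.exp) (f' := Real.exp) (fun x _ => (Real.hasDerivAt_exp x).hasDerivWithinAt)
      (Real.exp_injective.injOn) (fun _ => (1 : ENNReal))
    simpa using h1
  have hle : ∫⁻ t in E, ENNReal.ofReal |Real.exp t| ≤ ∫⁻ _t in E, ENNReal.ofReal (2 * X) := by
    refine setLIntegral_mono measurable_const (fun t ht => ?_)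
    apply ENNReal.ofReal_le_ofReal
    rw [abs_of_pos (Real.exp_pos t)]
    have h2 : t ≤ Real.log (2 * X) := ht.2.2
    calc Real.exp t ≤ Real.exp (Real.log (2 * X)) := Real.exp_le_exp.2 h2
      _ = 2 * X := Real.exp_log (by positivity)
  calc volume {x : ℝ | x ∈ Icc X (2 * X) ∧ Real.log x + c ∈ B}
      ≤ volume (Real.exp '' E) := measure_mono hsub
    _ = ∫⁻ t in E, ENNReal.ofReal |Real.exp t| := himg
    _ ≤ ∫⁻ _t in E, ENNReal.ofReal (2 * X) := hle
    _ = ENNReal.ofReal (2 * X) * volume E := by rw [setLIntegral_const]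
    _ ≤ ENNReal.ofReal (2 * X) * volume B := by gcongr

end Pool.Agent.AG
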