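import Pool.Agent.helper33.AG.Spec
import Pool.Agent.helper6.EV.All

/-!
# Row eav:QA
-/

set_option autoImplicit false

namespace Pool.Agent.AG

open N1f72dd46 Filter MeasureTheory Set Pool.Agent.QZ

lemma QA_nonneg (n : ℕ) (hn : 1 ≤ n) : 0 ≤ (H n : ℝ) - G n + n + 1 := by
  obtain ⟨a, ha, -, hs⟩ := Pool.Agent.EV.I2 Pool.Agent.EV.I1 n hn
  have h0 : (0 : ℤ) ≤ ∑ p ∈ (Finset.Icc 1 (Nat.sqrt n)).filter Nat.Prime, ((n : ℤ) - (a p : ℤ)) := by
    refine Finset.sum_nonneg (fun p _ => ?_)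
    rcases ha p with h | h
    · rw [h]; simp
    · have := h.2.2.1
      have h2 : (a p : ℤ) ≤ n := by exact_mod_cast this
      linarith
  have h1 : (0 : ℤ) ≤ (H n : ℤ) - (G n : ℤ) + n + 1 := h0.trans hs
  exact_mod_cast h1

lemma QA_nonneg0 (n : ℕ) : -((n : ℝ) + 1) ≤ (H n : ℝ) - G n := by
  rcases Nat.eq_zero_or_pos n with h | h
  · subst h
    have hG : G 0 = 0 := by
      obtain ⟨⟨S, hS, hs⟩, -⟩ := Pool.Agent.EV.I1 0
      rw [hs]
      refine Finset.sum_eq_zero (fun a ha => ?_)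
      have h1 := hS.1 ha
      have := Finset.mem_Icc.1 h1
      omega
    rw [hG]
    have : (0 : ℝ) ≤ (H 0 : ℝ) := Nat.cast_nonneg _
    push_cast
    linarith
  · have := QA_nonneg n h
    linarith

/-- the pigeonhole -/
lemma QA_pigeon {c0 c : ℝ} (hc : 0 < c) (hc1 : c ≤ 1 / 2) (hc2 : c ≤ c0)
    (hev : ∀ᶠ N : ℕ in atTop, ∑ n ∈ Finset.range (N + 1), ((H n : ℝ) - G n) ≤ (N : ℝ) ^ (5 / 2 - c0)) :
    ∀ᶠ M : ℕ in atTop, ∃ n : ℕ, M ≤ n ∧ (n : ℝ) ≤ M + (M : ℝ) ^ (1 - c / 4) ∧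
      (H n : ℝ) - (n : ℝ) ^ (3 / 2 - c / 8 : ℝ) ≤ (G n : ℝ) := by
  have t1 : Tendsto (fun n : ℕ => (n : ℝ) ^ (5 * c / 8)) atTop atTop :=
    (tendsto_rpow_atTop (by positivity : 0 < 5 * c / 8)).comp tendsto_natCast_atTop_atTop
  obtain ⟨N0, hN0⟩ := eventually_atTop.1 hev
  filter_upwards [t1.eventually (eventually_gt_atTop (8 : ℝ)), eventually_ge_atTop N0,
    eventually_ge_atTop 1] with M h8 hMN hM1
  by_contra hcon
  push Not at hcon
  have hM : (1 : ℝ) ≤ M := by exact_mod_cast hM1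
  have hM0 : (0 : ℝ) < M := by linarith
  set w : ℕ := ⌊(M : ℝ) ^ (1 - c / 4)⌋₊ with hw
  have hwle : (w : ℝ) ≤ (M : ℝ) ^ (1 - c / 4) := Nat.floor_le (by positivity)
  have hwlt : (M : ℝ) ^ (1 - c / 4) < w + 1 := Nat.lt_floor_add_one _
  have hwM : (w : ℝ) ≤ M := by
    refine hwle.trans ?_
    calc (M : ℝ) ^ (1 - c / 4) ≤ (M : ℝ) ^ (1 : ℝ) := Real.rpow_le_rpow_of_exponent_le hM (by linarith)
      _ = M := Real.rpow_one _
  have hS := hN0 (M + w) (by omega)
  have hsplit : ∑ n ∈ Finset.range (M + w + 1), ((H n : ℝ) - G n) =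
      ∑ n ∈ Finset.range M, ((H n : ℝ) - G n) + ∑ n ∈ Finset.Ico M (M + w + 1), ((H n : ℝ) - G n) := by
    rw [Finset.range_eq_Ico, Finset.range_eq_Ico]
    exact (Finset.sum_Ico_consecutive _ (Nat.zero_le M) (by omega)).symm
  have hlow : -((M : ℝ) ^ 2) ≤ ∑ n ∈ Finset.range M, ((H n : ℝ) - G n) := by
    have h1 : ∑ n ∈ Finset.range M, (-((n : ℝ) + 1)) ≤ ∑ n ∈ Finset.range M, ((H n : ℝ) - G n) :=
      Finset.sum_le_sum (fun n _ => QA_nonneg0 n)
    have h2 : -((M : ℝ) ^ 2) ≤ ∑ n ∈ Finset.range M, (-((n : ℝ) + 1)) := by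
      have h3 : ∑ n ∈ Finset.range M, (-(M : ℝ)) ≤ ∑ n ∈ Finset.range M, (-((n : ℝ) + 1)) := by
        refine Finset.sum_le_sum (fun n hn => ?_)
        have h4 : n + 1 ≤ M := Finset.mem_range.1 hn
        have h5 : (n : ℝ) + 1 ≤ M := by exact_mod_cast h4
        linarith
      refine le_trans (le_of_eq ?_) h3
      rw [Finset.sum_const, Finset.card_range, nsmul_eq_mul]
      ring
    linarith
  have hwin : (M : ℝ) ^ (1 - c / 4) * (M : ℝ) ^ (3 / 2 - c / 8) ≤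
      ∑ n ∈ Finset.Ico M (M + w + 1), ((H n : ℝ) - G n) := by
    have h1 : ∑ n ∈ Finset.Ico M (M + w + 1), ((M : ℝ) ^ (3 / 2 - c / 8)) ≤
        ∑ n ∈ Finset.Ico M (M + w + 1), ((H n : ℝ) - G n) := by
      refine Finset.sum_le_sum (fun n hn => ?_)
      have h2 := Finset.mem_Ico.1 hn
      have h3 : (n : ℝ) ≤ M + w := by
        have : n ≤ M + w := by omega
        exact_mod_cast this
      have h4 := hcon n h2.1 (by linarith)
      have h5 : (M : ℝ) ^ (3 / 2 - c / 8) ≤ (n : ℝ) ^ (3 / 2 - c / 8) :=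
        Real.rpow_le_rpow hM0.le (by exact_mod_cast h2.1) (by linarith)
      linarith
    refine le_trans ?_ h1
    rw [Finset.sum_const, Nat.card_Ico, nsmul_eq_mul]
    have e1 : ((M + w + 1 - M : ℕ) : ℝ) = w + 1 := by
      have : M + w + 1 - M = w + 1 := by omega
      rw [this]; push_cast; ring
    rw [e1]
    exact mul_le_mul_of_nonneg_right hwlt.le (by positivity)
  have hup : ((M + w : ℕ) : ℝ) ^ (5 / 2 - c0) ≤ 6 * (M : ℝ) ^ (5 / 2 - c) := by
    have h1 : (1 : ℝ) ≤ ((M + w : ℕ) : ℝ) := by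
      have : 1 ≤ M + w := by omega
      exact_mod_cast this
    have h2 : ((M + w : ℕ) : ℝ) ≤ 2 * M := by
      push_cast
      linarith
    calc ((M + w : ℕ) : ℝ) ^ (5 / 2 - c0) ≤ ((M + w : ℕ) : ℝ) ^ (5 / 2 - c) :=
          Real.rpow_le_rpow_of_exponent_le h1 (by linarith)
      _ ≤ (2 * (M : ℝ)) ^ (5 / 2 - c) := Real.rpow_le_rpow (by positivity) h2 (by linarith)
      _ = 2 ^ (5 / 2 - c) * (M : ℝ) ^ (5 / 2 - c) := Real.mul_rpow (by norm_num) hM0.le
      _ ≤ 6 * (M : ℝ) ^ (5 / 2 - c) := by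
          refine mul_le_mul_of_nonneg_right ?_ (by positivity)
          calc (2 : ℝ) ^ (5 / 2 - c) ≤ 2 ^ (5 / 2 : ℝ) :=
                Real.rpow_le_rpow_of_exponent_le (by norm_num) (by linarith)
            _ = 2 ^ (2 : ℝ) * 2 ^ (1 / 2 : ℝ) := by
                rw [← Real.rpow_add (by norm_num)]; norm_num
            _ ≤ 6 := by
                rw [← Real.sqrt_eq_rpow]
                have h3 : Real.sqrt 2 ≤ 3 / 2 := by
                  rw [Real.sqrt_le_left (by norm_num)]; norm_num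
                have h4 : (2 : ℝ) ^ (2 : ℝ) = 4 := by
                  rw [Real.rpow_two]; norm_num
                rw [h4]; linarith
  have hsq : (M : ℝ) ^ 2 ≤ (M : ℝ) ^ (5 / 2 - c) := by
    rw [← Real.rpow_natCast]
    exact Real.rpow_le_rpow_of_exponent_le hM (by push_cast; linarith)
  have hcomb : (M : ℝ) ^ (1 - c / 4) * (M : ℝ) ^ (3 / 2 - c / 8) =
      (M : ℝ) ^ (5 * c / 8) * (M : ℝ) ^ (5 / 2 - c) := by
    rw [← Real.rpow_add hM0, ← Real.rpow_add hM0]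
    ring_nf
  rw [hcomb] at hwin
  rw [hsplit] at hS
  have hP : (0 : ℝ) < (M : ℝ) ^ (5 / 2 - c) := Real.rpow_pos_of_pos hM0 _
  nlinarith

theorem QA : QA_stmt := by
  rintro ⟨c0, hc0, hev⟩
  set c : ℝ := min c0 (1 / 2) with hc
  have hcp : 0 < c := lt_min hc0 (by norm_num)
  have hc1 : c ≤ 1 / 2 := min_le_right _ _
  have hc2 : c ≤ c0 := min_le_left _ _
  have hI3 := Pool.Agent.EV.all_I3
  have hI4 := Pool.Agent.EV.I4
  have hmono : Monotone Pool.Agent.EV.pc := hI4.1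
  have hdiff := hI4.2.2.1
  have hP := QA_pigeon hcp hc1 hc2 hev
  have ev1 : ∀ᶠ n : ℕ in atTop, (n : ℝ) ^ (-(c / 8 / 2)) ≤ 1 / 2 := by
    have t1 : Tendsto (fun n : ℕ => (n : ℝ) ^ (-(c / 8 / 2))) atTop (nhds 0) :=
      (tendsto_rpow_neg_atTop (by positivity : 0 < c / 8 / 2)).comp tendsto_natCast_atTop_atTop
    filter_upwards [t1.eventually (gt_mem_nhds (by norm_num : (0 : ℝ) < 1 / 2))] with n hn
    exact le_of_lt hn
  have ev2 : ∀ᶠ n : ℕ in atTop, Real.exp 3 ^ 2 < (n : ℝ) :=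
    tendsto_natCast_atTop_atTop.eventually (eventually_gt_atTop _)
  obtain ⟨N1, hN1⟩ := eventually_atTop.1 hP
  obtain ⟨N2, hN2⟩ := eventually_atTop.1 (ev1.and ev2)
  set N : ℕ := max N1 N2 with hN
  have hN0 : (0 : ℝ) ≤ N := Nat.cast_nonneg _
  refine ⟨c / 8, 31, (N : ℝ) + 2, by positivity, by linarith, by norm_num, by linarith, ?_⟩
  intro X l hX hl0 hl1
  have hX1 : 2 ≤ X := by linarith
  have hX0 : 0 ≤ X := by linarith
  have hXp : 0 < X := by linarith
  set M : ℕ := ⌊X ^ 2⌋₊ with hM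
  have hNM : N ≤ M := by
    rw [hM]
    apply Nat.le_floor
    nlinarith
  obtain ⟨n, hMn, hnle, hps⟩ := hN1 M (le_trans (le_max_left _ _) hNM)
  obtain ⟨hh, h3⟩ := hN2 n (le_trans (le_trans (le_max_right _ _) hNM) hMn)
  have hMX : (M : ℝ) ≤ X ^ 2 := Nat.floor_le (by positivity)
  set x : ℝ := Real.sqrt n with hx
  have hx0 : 0 ≤ x := Real.sqrt_nonneg _
  have hxn : x ^ 2 = n := Real.sq_sqrt (Nat.cast_nonneg _)
  have hx3 : Real.exp 3 < x := by
    rw [hx]
    exact Real.lt_sqrt_of_sq_lt h3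
  have core := Pool.Agent.EV.I5_core hI3 hI4 (c / 8) (by positivity) (by linarith) n x l hx0 hxn hx3 hps hh hl0 hl1
  have hpcx : Pool.Agent.EV.pc X ≤ Pool.Agent.EV.pc x := by
    have h1 : Pool.Agent.EV.pc X = Pool.Agent.EV.pc (Real.sqrt M) := by
      unfold Pool.Agent.EV.pc
      rw [hM, Pool.Agent.EV.I5_floor X hX0]
    rw [h1]
    exact hmono (Real.sqrt_le_sqrt (by exact_mod_cast hMn))
  -- the upper bound for x
  set R : ℝ := X ^ (1 - c / 2) with hR
  have hRp : 0 < R := Real.rpow_pos_of_pos hXp _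
  have hMr : (M : ℝ) ^ (1 - c / 4) ≤ X * R := by
    calc (M : ℝ) ^ (1 - c / 4) ≤ (X ^ 2) ^ (1 - c / 4) :=
          Real.rpow_le_rpow (Nat.cast_nonneg _) hMX (by linarith)
      _ = X * R := by
          rw [hR, ← Real.rpow_natCast X 2, ← Real.rpow_mul hX0]
          nth_rewrite 2 [← Real.rpow_one X]
          rw [← Real.rpow_add hXp]
          congr 1
          push_cast
          ring
  have hxup : x ≤ X + R := by
    rw [hx]
    refine Real.sqrt_le_iff.2 ⟨by positivity, ?_⟩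
    nlinarith
  have hRX : R ≤ X ^ (1 - c / 8) := Real.rpow_le_rpow_of_exponent_le (by linarith) (by linarith)
  have hone : 1 ≤ X ^ (1 - c / 8) := Real.one_le_rpow (by linarith) (by linarith)
  have move : ∀ e : ℝ, 0 < e → e ≤ 2 → Pool.Agent.EV.pc (x * e) ≤ Pool.Agent.EV.pc (X * e) + 2 * R + 1 := by
    intro e he0 he2
    rcases le_total x X with h | h
    · have := hmono (mul_le_mul_of_nonneg_right h he0.le)
      linarith
    · have := hdiff (X * e) (x * e) (by positivity) (mul_le_mul_of_nonneg_right h he0.le)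
      nlinarith
  have m1 := move (Real.exp (-l)) (Real.exp_pos _) (by
    have : Real.exp (-l) ≤ 1 := Real.exp_le_one_iff.2 (by linarith)
    linarith)
  have m2 := move (Real.exp l) (Real.exp_pos _) (by
    have h1 : Real.exp l ≤ Real.exp (1 / 2) := Real.exp_le_exp.2 hl1
    have h2 : Real.exp (1 / 2) ≤ 2 := by
      have h3 : Real.exp (1 / 2) * Real.exp (1 / 2) = Real.exp 1 := by
        rw [← Real.exp_add]; norm_num
      have h4 := Real.exp_one_lt_d9
      nlinarith [Real.exp_pos (1 / 2 : ℝ)]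
    linarith)
  have m3 : (n : ℝ) ^ (1 / 2 - c / 8 / 2 : ℝ) ≤ 2 * X ^ (1 - c / 8) := by
    have hn2 : (n : ℝ) ≤ 4 * X ^ 2 := by
      have : X * R ≤ X ^ 2 := by
        have h5 : R ≤ X := by
          calc R ≤ X ^ (1 : ℝ) := Real.rpow_le_rpow_of_exponent_le (by linarith) (by linarith)
            _ = X := Real.rpow_one X
        nlinarith
      nlinarith
    calc (n : ℝ) ^ (1 / 2 - c / 8 / 2 : ℝ) ≤ (4 * X ^ 2) ^ (1 / 2 - c / 8 / 2 : ℝ) :=
          Real.rpow_le_rpow (Nat.cast_nonneg _) hn2 (by linarith)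
      _ = ((2 * X) ^ 2) ^ (1 / 2 - c / 8 / 2 : ℝ) := by ring_nf
      _ = (2 * X) ^ (1 - c / 8) := by
          rw [← Real.rpow_natCast (2 * X) 2, ← Real.rpow_mul (by positivity)]
          congr 1
          push_cast
          ring
      _ = 2 ^ (1 - c / 8) * X ^ (1 - c / 8) := Real.mul_rpow (by norm_num) hX0
      _ ≤ 2 * X ^ (1 - c / 8) := by
          refine mul_le_mul_of_nonneg_right ?_ (by positivity)
          calc (2 : ℝ) ^ (1 - c / 8) ≤ 2 ^ (1 : ℝ) :=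
                Real.rpow_le_rpow_of_exponent_le (by norm_num) (by linarith)
            _ = 2 := Real.rpow_one 2
  linarith

end Pool.Agent.AG
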