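import Pool.Agent.helper33.AG.Spec

/-!
# Row eav:ZC
-/

set_option autoImplicit false

namespace Pool.Agent.AG

open N1f72dd46 Filter MeasureTheory Set Pool.Agent.QZ

lemma ZC_mono : Monotone V := fun _ _ h => Chebyshev.theta_mono (Real.exp_le_exp.2 h)

lemma ZC_ii (a b : ℝ) : IntervalIntegrable V volume a b := ZC_mono.intervalIntegrable

lemma ZC_W (a b : ℝ) : W b - W a = ∫ u in a..b, V u := by
  unfold W
  exact intervalIntegral.integral_interval_sub_left (ZC_ii _ _) (ZC_ii _ _)

lemma ZC_shift (t d : ℝ) : ∫ v in (0 : ℝ)..d, V (t + v) = W (t + d) - W t := by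
  rw [ZC_W, intervalIntegral.integral_comp_add_left (fun u => V u) t, add_zero]

lemma ZC_shift' (t d : ℝ) : ∫ v in (0 : ℝ)..d, V (t - v) = W t - W (t - d) := by
  rw [ZC_W, intervalIntegral.integral_comp_sub_left (fun u => V u) t, sub_zero]

lemma ZC_up {a b : ℝ} (h : a ≤ b) : W b - W a ≤ (b - a) * V b := by
  rw [ZC_W]
  have h1 : ∫ u in a..b, V u ≤ ∫ _u in a..b, V b :=
    intervalIntegral.integral_mono_on h (ZC_ii _ _) (by simp) (fun u hu => ZC_mono hu.2)
  simpa using h1

lemma ZC_low {a b : ℝ} (h : a ≤ b) : (b - a) * V a ≤ W b - W a := by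
  rw [ZC_W]
  have h1 : ∫ _u in a..b, V a ≤ ∫ u in a..b, V u :=
    intervalIntegral.integral_mono_on h (by simp) (ZC_ii _ _) (fun u hu => ZC_mono hu.1)
  simpa using h1

lemma ZC_sum (d t : ℝ) (K : ℕ) :
    ∑ k ∈ Finset.range (K + 1), Z d (t + k * d) =
      (W (t + (K + 1) * d) - W (t + K * d)) - (W t - W (t - d)) := by
  induction K with
  | zero => simp [Z]; ring
  | succ K ih =>
    rw [Finset.sum_range_succ, ih]
    unfold Z
    push_cast
    have e1 : t + ((K : ℝ) + 1) * d + d = t + ((K : ℝ) + 1 + 1) * d := by ring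
    have e2 : t + ((K : ℝ) + 1) * d - d = t + (K : ℝ) * d := by ring
    rw [e1, e2]
    ring

theorem ZC : ZC_stmt := by
  refine ⟨ZC_mono, ?_, ?_, ?_, ?_, ?_, ?_⟩
  · exact intervalIntegral.continuous_primitive (fun a b => ZC_ii a b) 0
  · intro d
    have hW : Continuous W := intervalIntegral.continuous_primitive (fun a b => ZC_ii a b) 0
    unfold Z
    fun_prop
  · intro d t hd
    have h1 := ZC_low (a := t) (b := t + d) (by linarith)
    have h2 := ZC_up (a := t - d) (b := t) (by linarith)
    unfold Z
    have e1 : t + d - t = d := by ring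
    have e2 : t - (t - d) = d := by ring
    rw [e1] at h1
    rw [e2] at h2
    linarith
  · intro d t
    have i1 : IntervalIntegrable (fun v => V (t + v)) volume 0 d := by
      have := (ZC_ii (t + 0) (t + d)).comp_add_left t
      simpa using this
    have i2 : IntervalIntegrable (fun v => V (t - v)) volume 0 d := by
      have := (ZC_ii (t - 0) (t - d)).comp_sub_left t
      simpa using this
    rw [intervalIntegral.integral_sub i1 i2, ZC_shift, ZC_shift']
    unfold Z
    ring
  · intro d t K hd
    rw [ZC_sum]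
    have h1 := ZC_up (a := t + K * d) (b := t + (K + 1) * d) (by nlinarith)
    have h2 := ZC_low (a := t - d) (b := t) (by linarith)
    have e1 : t + ((K : ℝ) + 1) * d - (t + K * d) = d := by ring
    have e2 : t - (t - d) = d := by ring
    rw [e1] at h1
    rw [e2] at h2
    linarith
  · intro d t K hd
    rw [ZC_sum]
    have h1 := ZC_low (a := t + K * d) (b := t + (K + 1) * d) (by nlinarith)
    have h2 := ZC_up (a := t - d) (b := t) (by linarith)
    have e1 : t + ((K : ℝ) + 1) * d - (t + K * d) = d := by ring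
    have e2 : t - (t - d) = d := by ring
    rw [e1] at h1
    rw [e2] at h2
    linarith

end Pool.Agent.AG
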