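import Pool.Agent.helper33.AG.Spec
import Pool.Agent.helper33.AG.ZC
import Pool.Agent.helper33.AG.MS
import Pool.Agent.helper33.AG.QA
import Pool.Agent.helper29.AG.TZ
import Pool.Agent.helper16.AG.GD
import Pool.Agent.helper16.AG.EX
import Pool.Agent.helper16.AG.GP
import Pool.Agent.helper68.AG.OF
import Pool.Agent.helper68.AG.AZ
import Pool.Agent.helper63.AG.LA
import Pool.Agent.helper63.AG.DI
import Pool.Agent.helper87.AG.CV
import Pool.Agent.helper79.AG.FA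
import Pool.Agent.helper68.QZ.All
import Pool.Agent.helper6.EV.All

/-!
# Project ag: assembly
-/

set_option autoImplicit false

namespace Pool.Agent.AG

open N1f72dd46 Filter MeasureTheory Set Pool.Agent.QZ

theorem all_OF : OF_stmt := OF ZC (TZ ZC) GD
theorem all_DI : DI_stmt := DI ZC all_OF LA
theorem all_EX : EX_stmt := EX ZC all_DI (AZ ZC)
theorem all_FA : FA_stmt := FA all_EX (CV ZC) MS

/-- a power saving on average gives a zero free half plane -/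
theorem FIN_qrh (h : ∃ c : ℝ, 0 < c ∧ ∀ᶠ N : ℕ in atTop,
    ∑ n ∈ Finset.range (N + 1), ((H n : ℝ) - G n) ≤ (N : ℝ) ^ (5 / 2 - c)) : Pool.Agent.EV.QRH :=
  Pool.Agent.EV.QR (Pool.Agent.EV.all_NO (QA h))

theorem FIN_avg {κ : ℝ} (h2 : κ < 3 / 2) (h : Avg κ) : ∃ c : ℝ, 0 < c ∧ ∀ᶠ N : ℕ in atTop,
    ∑ n ∈ Finset.range (N + 1), ((H n : ℝ) - G n) ≤ (N : ℝ) ^ (5 / 2 - c) := by
  refine ⟨(3 / 2 - κ) / 2, by linarith, ?_⟩
  filter_upwards [h ((3 / 2 - κ) / 2) (by linarith)] with N hN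
  have e : 1 + κ + (3 / 2 - κ) / 2 = 5 / 2 - (3 / 2 - κ) / 2 := by ring
  rw [e] at hN
  exact hN

theorem all_MAIN : MAIN_stmt := by
  intro κ h1 h2 h
  have hq := FIN_qrh (FIN_avg h2 h)
  obtain ⟨f, C, hf1, hf2, hC, hth⟩ := Pool.Agent.EV.all_TH hq
  have hTB : TB f C := ⟨hf1, hf2, hC, hth⟩
  have hFA := all_FA κ f C h1 h hTB
  refine ⟨hq, hFA, ?_⟩
  exact GP (2 * κ - 1) (by linarith) hFA

/-- a pointwise bound gives an average bound -/
theorem FIN_sum (a δ : ℝ) (ha : 0 ≤ a) (hδ : 0 < δ)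
    (h : ∀ᶠ n : ℕ in atTop, (H n : ℝ) - (n : ℝ) ^ a ≤ (G n : ℝ)) : ∀ᶠ N : ℕ in atTop,
    ∑ n ∈ Finset.range (N + 1), ((H n : ℝ) - G n) ≤ (N : ℝ) ^ (1 + a + δ) := by
  obtain ⟨n0, hn0⟩ := eventually_atTop.1 h
  set A : ℝ := ∑ n ∈ Finset.range n0, ((H n : ℝ) - G n) with hA
  have t1 : Tendsto (fun n : ℕ => (n : ℝ) ^ δ) atTop atTop :=
    (tendsto_rpow_atTop hδ).comp tendsto_natCast_atTop_atTop
  filter_upwards [t1.eventually (eventually_ge_atTop (|A| + 2)), eventually_ge_atTop n0,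
    eventually_ge_atTop 1] with N hN hN0 hN1
  have hNr : (1 : ℝ) ≤ N := by exact_mod_cast hN1
  have hNp : (0 : ℝ) < N := by linarith
  have hsplit : ∑ n ∈ Finset.range (N + 1), ((H n : ℝ) - G n) =
      A + ∑ n ∈ Finset.Ico n0 (N + 1), ((H n : ℝ) - G n) := by
    rw [hA, Finset.range_eq_Ico, Finset.range_eq_Ico]
    exact (Finset.sum_Ico_consecutive _ (Nat.zero_le n0) (by omega)).symm
  have hup : ∑ n ∈ Finset.Ico n0 (N + 1), ((H n : ℝ) - G n) ≤ ((N : ℝ) + 1) * (N : ℝ) ^ a := by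
    calc ∑ n ∈ Finset.Ico n0 (N + 1), ((H n : ℝ) - G n)
        ≤ ∑ n ∈ Finset.Ico n0 (N + 1), (N : ℝ) ^ a := by
          refine Finset.sum_le_sum (fun n hn => ?_)
          have h1 := Finset.mem_Ico.1 hn
          have h2 := hn0 n h1.1
          have h3 : (n : ℝ) ^ a ≤ (N : ℝ) ^ a := by
            refine Real.rpow_le_rpow (Nat.cast_nonneg _) ?_ ha
            exact_mod_cast Nat.lt_succ_iff.1 h1.2
          linarith
      _ = ((N + 1 - n0 : ℕ) : ℝ) * (N : ℝ) ^ a := by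
          rw [Finset.sum_const, Nat.card_Ico, nsmul_eq_mul]
      _ ≤ ((N : ℝ) + 1) * (N : ℝ) ^ a := by
          refine mul_le_mul_of_nonneg_right ?_ (by positivity)
          have h4 : N + 1 - n0 ≤ N + 1 := Nat.sub_le _ _
          exact_mod_cast h4
  have hpow : (N : ℝ) ^ (1 + a + δ) = N * (N : ℝ) ^ a * (N : ℝ) ^ δ := by
    rw [Real.rpow_add hNp, Real.rpow_add hNp, Real.rpow_one]
  have hPa : 1 ≤ (N : ℝ) ^ a := Real.one_le_rpow hNr ha
  have hQ : 1 ≤ (N : ℝ) * (N : ℝ) ^ a := by nlinarith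
  rw [hsplit, hpow]
  have h5 : ((N : ℝ) + 1) * (N : ℝ) ^ a ≤ 2 * ((N : ℝ) * (N : ℝ) ^ a) := by nlinarith
  have h6 : A ≤ |A| * ((N : ℝ) * (N : ℝ) ^ a) := by
    have h7 := le_abs_self A
    have h8 := abs_nonneg A
    nlinarith
  have h9 : (|A| + 2) * ((N : ℝ) * (N : ℝ) ^ a) ≤ (N : ℝ) ^ δ * ((N : ℝ) * (N : ℝ) ^ a) :=
    mul_le_mul_of_nonneg_right hN (by positivity)
  nlinarith

/-- average power saving, pointwise power saving and the zero free half plane are equivalent -/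
theorem FIN_iff : (∃ c : ℝ, 0 < c ∧ ∀ᶠ N : ℕ in atTop,
    ∑ n ∈ Finset.range (N + 1), ((H n : ℝ) - G n) ≤ (N : ℝ) ^ (5 / 2 - c)) ↔
    ∃ c : ℝ, 0 < c ∧ ∀ᶠ n : ℕ in atTop, (H n : ℝ) - (n : ℝ) ^ (3 / 2 - c : ℝ) ≤ (G n : ℝ) := by
  constructor
  · intro h
    exact Pool.Agent.EV.all_MAIN.1.2 (FIN_qrh h)
  · rintro ⟨c, hc, h⟩
    set b : ℝ := min c 1 with hb
    have hb0 : 0 < b := lt_min hc one_pos
    have hb1 : b ≤ 1 := min_le_right _ _
    have hbc : b ≤ c := min_le_left _ _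
    have h' : ∀ᶠ n : ℕ in atTop, (H n : ℝ) - (n : ℝ) ^ (3 / 2 - b : ℝ) ≤ (G n : ℝ) := by
      filter_upwards [h, eventually_ge_atTop 1] with n hn hn1
      have h3 : (n : ℝ) ^ (3 / 2 - c) ≤ (n : ℝ) ^ (3 / 2 - b) :=
        Real.rpow_le_rpow_of_exponent_le (by exact_mod_cast hn1) (by linarith)
      linarith
    refine ⟨b / 2, by positivity, ?_⟩
    have h4 := FIN_sum (3 / 2 - b) (b / 2) (by linarith) (by positivity) h'
    have e : 1 + (3 / 2 - b) + b / 2 = 5 / 2 - b / 2 := by ring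
    rw [e] at h4
    exact h4

end Pool.Agent.AG
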