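import Pool.Agent.helper68.QZ.Spec

/-!
# Project ag (MP_5a4a8e_nt): the inequality of Erdős on average

`G n` = the maximal sum of a pairwise coprime subset of `{1, .., n}`, `H n = ∑_{p < n} p + n π(√n)`.

THEOREM. Let `1 ≤ κ < 3/2` and suppose that for every `ε > 0`: `∑_{n ≤ N} (H n - G n) ≤ N^(1 + κ + ε)` for all large `N`
(an average bound). Then (1) `ζ` has no zeros in some half plane `Re s > t`, `t < 1`; (2) for every `ε > 0` there is `c > 0`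
such that for all large `X` and all `1 ≤ h ≤ X`: `|θ(x+h) - θ(x) - h| ≤ h X^(-c)` for all `x ∈ [X, 2X]` outside a set of
measure `≤ X^(2κ-1+ε)/h`; (3) `∑_{p ≤ X} (p' - p)² ≤ X^(2κ-1+ε)`, `p'` the next prime. Page: /team-store/MP_5a4a8e_AG_PAGE_helper33.md

## Rules

Every statement `XX_stmt` is proved in `Pool/Agent/<seat>/AG/XX.lean`: `import Pool.Agent.helper33.AG.Spec`, `namespace Pool.Agent.AG`,
the `open` line of the spec, `theorem XX (hYY : YY_stmt) ... : XX_stmt` with the hypotheses named in the docstring (Uses: ..). Auxiliary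
lemmas are prefixed `XX_`. No sorry, no double quotes, no `congr!`, no `convert`, no `native_decide`.

Library (may be imported): `Pool.Agent.helper90.QZ.LB` (`LB_large`, `LB_fin`), `Pool.Agent.helper68.QZ.All` (`all_CM`),
`Pool.Agent.helper6.EV.All` (`all_I3`, `I4`, `all_I5` and its file `Pool.Agent.helper31.EV.I5`, `all_NO`, `QR`, `all_TH`),
`Pool.Agent.helper55.EV.I2` (`I2`), `Pool.Agent.helper53.EV.I1` (`I1`).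
-/

set_option autoImplicit false

namespace Pool.Agent.AG

open N1f72dd46 Filter MeasureTheory Set Pool.Agent.QZ

/-! ## Definitions -/

/-- the average hypothesis with exponent `κ` -/
def Avg (κ : ℝ) : Prop := ∀ ε : ℝ, 0 < ε → ∀ᶠ N : ℕ in atTop,
  ∑ n ∈ Finset.range (N + 1), ((H n : ℝ) - G n) ≤ (N : ℝ) ^ (1 + κ + ε)

/-- the normalised loss -/
noncomputable def Los (n : ℕ) : ℝ := ((H n : ℝ) - G n + n + 1) / n

/-- the normalised loss at `n = ⌊e^(2y)⌋` -/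
noncomputable def Lam (y : ℝ) : ℝ := Los ⌊Real.exp (2 * y)⌋₊

/-- `θ(e^t)` -/
noncomputable def V (t : ℝ) : ℝ := Chebyshev.theta (Real.exp t)

/-- the primitive of `V` -/
noncomputable def W (t : ℝ) : ℝ := ∫ u in (0 : ℝ)..t, V u

/-- `∑_p log p (d - |log p - t|)_+` (see TZ) -/
noncomputable def Z (d t : ℝ) : ℝ := W (t + d) + W (t - d) - 2 * W t

/-- the main term of `Z` -/
noncomputable def mt (d t : ℝ) : ℝ := 2 * (Real.cosh d - 1) * Real.exp t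

/-- the tent of half width `d` -/
noncomputable def T (d u : ℝ) : ℝ := max 0 (d - |u|)

/-- the bound for `θ` given by a zero free half plane -/
def TB (f C : ℝ) : Prop := 1 / 2 ≤ f ∧ f < 1 ∧ 0 < C ∧ ∀ y : ℝ, 1 ≤ y → |Chebyshev.theta y - y| ≤ C * y ^ f

/-- the next prime -/
noncomputable def nxt (p : ℕ) : ℕ := sInf {q : ℕ | p < q ∧ q.Prime}

/-! ## Part 1: the loss and the tents -/

/-- ZC (short). `V` is monotone (`Chebyshev.theta_mono`, `Real.exp_le_exp`), so it is interval integrable everywhere and `W` is continuous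
(`intervalIntegral.continuous_primitive`). `Z d t = (W (t+d) - W t) - (W t - W (t-d)) = ∫_0^d V(t+v) dv - ∫_0^d V(t-v) dv`. Last two: telescoping:
`∑_{k ≤ K} Z d (t + k d) = (W (t+(K+1)d) - W (t+Kd)) - (W t - W (t-d))`, and `V` is monotone. -/
def ZC_stmt : Prop := Monotone V ∧ Continuous W ∧ (∀ d : ℝ, Continuous (Z d)) ∧ (∀ d t : ℝ, 0 ≤ d → 0 ≤ Z d t) ∧
  (∀ d t : ℝ, Z d t = ∫ v in (0 : ℝ)..d, (V (t + v) - V (t - v))) ∧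
  (∀ (d t : ℝ) (K : ℕ), 0 ≤ d → ∑ k ∈ Finset.range (K + 1), Z d (t + k * d) ≤ d * (V (t + (K + 1) * d) - V (t - d))) ∧
  (∀ (d t : ℝ) (K : ℕ), 0 ≤ d → d * (V (t + K * d) - V t) ≤ ∑ k ∈ Finset.range (K + 1), Z d (t + k * d))

/-- TZ (medium). For one prime with `l = log p`: `∫_0^d (1[l ≤ t+v] - 1[l ≤ t-v]) dv = (d - |l - t|)_+ = T d (l - t)`, and `V u = ∑_{log p ≤ u} log p` (`Chebyshev.theta`: sum over the primes `≤ ⌊e^u⌋`), a finite sum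
over `p ≤ ⌊e^(t+d)⌋`; by ZC `∑'_p log p T d (log p - t) = Z d t`. With `φ s = T d (s - c)`: `φ(log p - y) = T d (log p - (y+c))`, `φ(y - log p) = T d (log p - (y-c))` (`T` is even). All sums have finite support (`LB_fin` in
`helper90/QZ/LB.lean`), so `Lq` is additive. Uses: ZC. -/
def TZ_stmt : Prop := ∀ (d y : ℝ) (J : Finset ℕ) (c : ℕ → ℝ), 0 < d →
  Lq (fun s => ∑ j ∈ J, T d (s - c j)) y = ∑ j ∈ J, (Z d (y + c j) - Z d (y - c j))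

/-- GD (short/medium). The tents have disjoint supports `((2j-1+τ)d, (2j+1+τ)d)`, contained in `(d, 1/4)`. `T d` is `1`-Lipschitz with values in `[0, d]`, `d ≤ 1/4`. At each point at most one summand is not `0`. Lipschitz: for `u < v` with
`T_i(u) ≠ 0`, `T_j(v) ≠ 0`, `i ≠ j`: `i < j`, `T_i(u) ≤ (2i+1+τ)d - u`, `T_j(v) ≤ v - (2j-1+τ)d` and `(2i+1+τ)d ≤ (2j-1+τ)d`, so both are `≤ v - u` and so is their difference. (Or: for nonnegative functions with disjoint supports the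
sum is the supremum.) -/
def GD_stmt : Prop := ∀ (d τ : ℝ) (J : Finset ℕ), 0 < d → 0 ≤ τ →
  (∀ j ∈ J, 1 ≤ j ∧ (2 * (j : ℝ) + 1 + τ) * d ≤ 1 / 4) → Good 1 (1 / 4) (fun s => ∑ j ∈ J, T d (s - (2 * j + τ) * d))

/-- OF (medium). Let `F s = Z d (y-s) - Z d (y+s)`, `g = max 0 F` (continuous). `N = ⌈S/(2d)⌉₊ - 1`: `(2N+2)d ≥ S` and `(2N+3)d ≤ S + 3d ≤ 1/4`. For `τ ∈ [0,2]` let `J = {1 ≤ j ≤ N : F((2j+τ)d) > 0}`: by GD, TZ and the hypothesis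
`∑_{j=1}^N g((2j+τ)d) = ∑_{j ∈ J} F((2j+τ)d) = -Lq φ y ≤ A`. Integrate over `τ ∈ [0,2]`: `∫_{2d}^{(2N+2)d} g = ∑_j ∫_{2jd}^{(2j+2)d} g = d ∫_0^2 ∑_j g((2j+τ)d) dτ ≤ 2 d A` (`intervalIntegral.sum_integral_adjacent_intervals`, substitution
`s = (2j+τ)d`). `g ≥ 0` and `S ≤ (2N+2)d`. Uses: ZC, TZ, GD. -/
def OF_stmt : Prop := ∀ d y A S : ℝ, 0 < d → 2 * d ≤ S → S + 4 * d ≤ 1 / 4 →
  (∀ φ : ℝ → ℝ, Good 1 (1 / 4) φ → -A ≤ Lq φ y) →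
  ∫ s in (2 * d)..S, max 0 (Z d (y - s) - Z d (y + s)) ≤ 2 * d * A

/-- LA (medium). First part: `I2` (all terms `n - a p` are `≥ 0`), for `n ≥ 1`. `Lam` is measurable (`Nat.measurable_floor`, discrete) and bounded on bounded intervals. With `u = e^(2y)`, `dy = du/(2u)`:
`∫_Y^(Y+1) Lam = ∫ Los ⌊u⌋/(2u) du ≤ (e^(-2Y)/2) ∑_{n = ⌊e^(2Y)⌋}^{⌊e^(2Y+2)⌋} Los n ≤ (e^(-2Y)/2) (e^(2Y) - 1)⁻¹ ∑_{n ≤ N} (H n - G n + n + 1)`, `N = ⌊e^(2Y+2)⌋₊`, `≤ e^(-4Y) (N^(1+κ+ε/8) + (N+1)²)` (the terms are `≥ 0`, use them for `n ≥ 1`; the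
term `n = 0` is `H 0 - G 0 = 0`, or just a constant) `≤ e^((2κ-2+ε) Y)` for large `Y`. (Alternative without substitution: `⌊e^(2y)⌋ = n` on an interval of length `(1/2) log(1+1/n) ≤ 1/(2n)`.) -/
def LA_stmt : Prop := (∀ y : ℝ, 0 ≤ y → 0 ≤ Lam y) ∧ (∀ a b : ℝ, IntervalIntegrable Lam volume a b) ∧
  ∀ κ : ℝ, 1 ≤ κ → Avg κ → ∀ ε : ℝ, 0 < ε → ∃ Y0 : ℝ, ∀ Y : ℝ, Y0 ≤ Y →
    ∫ y in Y..(Y + 1), Lam y ≤ Real.exp ((2 * κ - 2 + ε) * Y)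

/-- DI (medium). By `LB_large` (`g = 1`, `all_CM`), `-(y (2 Lam y + 6)) ≤ Lq φ y` for `y ≥ 4` and all `Good 1 (1/4) φ`; OF with `S = 1/8`, `A = y (2 Lam y + 6)`: `∫_{2d}^{1/8} g(y,s) ds ≤ 2 d y (2 Lam y + 6)`, `g(y,s) = max 0 (Z d (y-s) - Z d (y+s))`.
Integrate over `y ∈ [Y-1, Y+2]` (LA three times): `≤ 2 d (Y+2) (6 e^((2κ-2+ε/2)(Y+1)) + 18) ≤ d e^((2κ-2+ε)Y)` for large `Y`. First claim: swap the integrals (continuous function on a rectangle, `intervalIntegral_integral_interchange` or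
`MeasureTheory.integral_integral_swap`), for fixed `s ∈ [0, 1/8]` put `a = y - s`: `∫_Y^(Y+1) max 0 (Z d a - Z d (a+2s)) da = ∫_(Y+s)^(Y+1+s) g(y,s) dy ≤ ∫_(Y-1)^(Y+2) g(y,s) dy`, swap back. Second claim: `a = y + s`. Uses: ZC, OF, LA. -/
def DI_stmt : Prop := ∀ κ : ℝ, 1 ≤ κ → Avg κ → ∀ ε : ℝ, 0 < ε → ∃ Y0 : ℝ, ∀ Y d : ℝ, Y0 ≤ Y → 0 < d → d ≤ 1 / 32 →
  (∫ a in Y..(Y + 1), ∫ s in (2 * d)..(1 / 8), max 0 (Z d a - Z d (a + 2 * s))) ≤ d * Real.exp ((2 * κ - 2 + ε) * Y) ∧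
  (∫ a in Y..(Y + 1), ∫ s in (2 * d)..(1 / 8), max 0 (Z d (a - 2 * s) - Z d a)) ≤ d * Real.exp ((2 * κ - 2 + ε) * Y)

/-! ## Part 2: the large scale and the exceptional sets -/

/-- AZ (medium). `V t = e^t + R t`, `|R t| ≤ C e^(ft)` for `t ≥ 0`. `∫_{r/2}^{r} Z d (a+2s) ds = (1/2) ∫_{a+r}^{a+2r} Z d`, and `Z d t = mt d t + ∫_0^d (R(t+v) - R(t-v)) dv` (ZC; `∫_0^d (e^(t+v) - e^(t-v)) dv = mt d t`). Main part:
`(cosh d - 1)(e^(a+2r) - e^(a+r)) = (cosh d - 1) e^a (r + O(r²))`, `0 ≤ cosh d - 1 ≤ d²`. Rest: swap: `(1/2) ∫_0^d (∫_{a+2r-v}^{a+2r+v} R - ∫_{a+r-v}^{a+r+v} R) dv`, absolute value `≤ ∫_0^d 2 v C e^(f(a+3r)) dv ≤ C e^(3/8) d² e^(fa)`.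
(`∫_{a+r}^{a+2r} (R(t+v) - R(t-v)) dt` is a difference of two integrals of `R` over intervals of length `2v`.) Second part: the same on the left, all arguments are `≥ a - 1 ≥ 1`. (Perhaps easier: `∫_{b}^{c} Z d` through the primitive of `W`.) Uses: ZC. -/
def AZ_stmt : Prop := ∀ f C : ℝ, TB f C → ∃ C1 : ℝ, 1 ≤ C1 ∧ ∀ a d r : ℝ, 2 ≤ a → 0 < d → 2 * d ≤ r → r ≤ 1 / 8 →
  |(∫ s in (r / 2)..r, Z d (a + 2 * s)) - (Real.cosh d - 1) * Real.exp a * r| ≤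
    C1 * d ^ 2 * (r ^ 2 * Real.exp a + Real.exp (f * a)) ∧
  |(∫ s in (r / 2)..r, Z d (a - 2 * s)) - (Real.cosh d - 1) * Real.exp a * r| ≤
    C1 * d ^ 2 * (r ^ 2 * Real.exp a + Real.exp (f * a))

/-- EX (medium). `C1` from AZ, `r = η/(8 C1) ≤ 1/8`, `K = 64 C1`. So `4d ≤ r`, `d ≤ 1/32`, and `e^(-(1-f)a) ≤ η²/(64 C1²)` for `a ≥ Y`, so `C1 (r² e^a + e^(fa)) ≤ (rη/4) e^a`; `mt d a ≥ d² e^a`. Let `a` be in the set with `Z d a ≥ (1+η) mt d a`: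
`∫_{2d}^{1/8} max 0 (Z d a - Z d (a+2s)) ds ≥ ∫_{r/2}^{r} (Z d a - Z d (a+2s)) ds ≥ (r/2)(1+η) mt d a - (cosh d - 1) e^a r - (r/4) η d² e^a ≥ (r/4) η mt d a ≥ (r/4) η d² e^Y` (`(r/2) mt d a = (cosh d - 1) e^a r`). Otherwise
`Z d a ≤ (1-η) mt d a`, the same with `Z d (a-2s) - Z d a`. Markov (`MeasureTheory.mul_meas_ge_le_lintegral` or `mul_meas_ge_le_integral_of_nonneg`) and DI: each of the two sets has measure `≤ 4 e^((2κ-3+ε)Y)/(r η d) = 32 C1 e^((2κ-3+ε)Y)/(η² d)`. Uses: ZC, DI, AZ. -/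
def EX_stmt : Prop := ∀ κ f C : ℝ, 1 ≤ κ → Avg κ → TB f C → ∀ ε : ℝ, 0 < ε → ∃ K Y0 : ℝ, 1 ≤ K ∧ ∀ Y d η : ℝ, Y0 ≤ Y →
  0 < d → 0 < η → η ≤ 1 → K * d ≤ η → K * Real.exp (-((1 - f) / 2) * Y) ≤ η →
  volume {a : ℝ | a ∈ Icc Y (Y + 1) ∧ η * mt d a ≤ |Z d a - mt d a|} ≤
    ENNReal.ofReal (K * Real.exp ((2 * κ - 3 + ε) * Y) / (η ^ 2 * d))

/-- CV (medium; elementary). `t0 = log x`, `t1 = log (x+h)`, `0 < t1 - t0 ≤ h/x ≤ 1`, `d ≤ η h/(80 x) ≤ 1/80`. `M(K) = ∑_{k ≤ K} mt d (t+kd) = (e^d - 1)(e^(t+Kd) - e^(t-d))` (telescoping, `mt d t = (e^(t+d) - e^t) - (e^t - e^(t-d))`).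
Upper deviation `θ(x+h) - θ(x) > (1+η)h`: `K = ⌈(t1-t0)/d⌉₊`, `t = t0`: `∑ Z ≥ d (V t1 - V t0) > d(1+η)h` (ZC), `M(K) ≤ (e^d-1)((x+h)e^d - x e^(-d)) ≤ d (1+η/2) h` (`e^d - 1 ≤ d(1+d)`, `x d ≤ η h/80`). If all `|Z - mt| < (η/4) mt` then
`∑ Z < (1+η/4) M(K) ≤ d(1+η/4)(1+η/2)h ≤ d(1+η)h`. Contradiction. Lower deviation `θ(x+h) - θ(x) < (1-η)h`: start at `t = t0 + d`, `K = ⌊(t1-t0)/d⌋₊ - 2` (`(t1-t0)/d ≥ 20` as `t1 - t0 ≥ h/(2x)`): `∑ Z ≤ d (V(t0+(K+2)d) - V t0) ≤ d (V t1 - V t0) < d(1-η)h`,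
`M(K) = (e^d-1)(e^(t0+(K+1)d) - x) ≥ d((x+h)e^(-2d) - x) ≥ d(1-η/4)h`, and `∑ Z > (1-η/4) M(K) ≥ d (1-η/4)² h`. Contradiction. In both cases the index satisfies `k ≤ (t1-t0)/d + 1`, so `k d ≤ 1` and `k x d ≤ 2h`. Uses: ZC. -/
def CV_stmt : Prop := ∀ x h η d : ℝ, 1 ≤ x → 0 < h → h ≤ x → 0 < η → η ≤ 1 → 0 < d → 80 * x * d ≤ η * h →
  η * h < |Chebyshev.theta (x + h) - Chebyshev.theta x - h| →
  ∃ k : ℕ, (k : ℝ) * d ≤ 1 ∧ (k : ℝ) * (x * d) ≤ 2 * h ∧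
    η / 4 * mt d (Real.log x + k * d) ≤ |Z d (Real.log x + k * d) - mt d (Real.log x + k * d)|

/-- MS (short/medium). `B ⊆ toMeasurable volume B =: B'`. The set is contained in the image of `E = {t : t + c ∈ B', log X ≤ t ≤ log (2X)}` under `exp`, and `volume (exp '' E) = ∫⁻_E e^t ≤ 2X volume E ≤ 2X volume B`
(`MeasureTheory.lintegral_image_eq_lintegral_abs_deriv_mul`, translation invariance). -/
def MS_stmt : Prop := ∀ (B : Set ℝ) (X c : ℝ), 0 < X →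
  volume {x : ℝ | x ∈ Icc X (2 * X) ∧ Real.log x + c ∈ B} ≤ ENNReal.ofReal (2 * X) * volume B

/-- the measure of the exceptional set -/
noncomputable def Bad (X h η : ℝ) : ENNReal :=
  volume {x : ℝ | x ∈ Icc X (2 * X) ∧ h * η < |Chebyshev.theta (x + h) - Chebyshev.theta x - h|}

/-- FA (medium). `K`, `Y0` from EX with `ε/4`; `c = min (ε/32) ((1-f)/8)`, `η = X^(-c)`. If `h ≥ 40 X/K`: by TB `|θ(x+h) - θ(x) - h| ≤ 2C (3X)^f ≤ h X^(-c)` for large `X`, the set is empty. Otherwise `d = η h/(160 X)`: `80 x d ≤ η h` for `x ≤ 2X`, and EX applies with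
`η/4` (`K d ≤ η/4`; `K e^(-(1-f)Y/2) ≤ η/4` for large `X`) and `Y = log X`, `Y = log X + 1`: with `B = ` the union of the two exceptional sets, CV gives for every `x` in the set a `k ≤ 2h/(Xd) = 320/η` (`h ≤ X ≤ x`) with `log x + k d ∈ B` (`log x + kd ≤ log X + log 2 + 1 ≤ log X + 2`).
So (MS) the measure is `≤ (320/η + 1) 2X · 2 K e^((2κ-3+ε/4)(log X + 1)) (e^|..|)/((η/4)² d) ≤ C' X^(2κ-1+ε/4) η^(-4)/h ≤ X^(2κ-1+ε)/h` for large `X` (`4c ≤ ε/8`). (Countable/finite union: `measure_biUnion_finset_le`.) Uses: EX, CV, MS. -/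
def FA_stmt : Prop := ∀ κ f C : ℝ, 1 ≤ κ → Avg κ → TB f C → ∀ ε : ℝ, 0 < ε → ∃ c : ℝ, 0 < c ∧ ∀ᶠ X : ℝ in atTop,
  ∀ h : ℝ, 1 ≤ h → h ≤ X → Bad X h (X ^ (-c)) ≤ ENNReal.ofReal (X ^ (2 * κ - 1 + ε) / h)

/-! ## Part 3: the zeros and the gaps -/

/-- QA (medium). Adapt `helper31/EV/I5.lean`. Let `0 < c ≤ 1/2`. For large real `X` let `M = ⌊X²⌋₊`. All `H n - G n + n + 1 ≥ 0` (`I2`), and `∑_{n ≤ 2M} (H n - G n + n + 1) ≤ (2M)^(5/2-c) + (2M+1)² + 1 < M^(5/2-3c/8)/2`, so some `n` with `M ≤ n ≤ M + M^(1-c/4)`, has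
`H n - G n + n + 1 ≤ M^(3/2-c/8)` (there are more than `M^(1-c/4)/2` such `n`). Let `x = √n`: `X - 1 ≤ x ≤ X + X^(1-c/2)`. I3 with `h = n^(-c/16)` and `l ≤ 1/2`: `pc (x e^(-h)) - pc (x e^(-h-l)) - pc (x e^(h+l)) + pc x ≤ 2 n^(1/2-c/16)`. By I4 every `pc` here may be moved to the one at `X`
(or `X e^(∓l)`) at a cost `≤ 4(|x - X| + x h + 1)`: in the right direction `pc (X e^(-l)) ≥ pc (x e^(-h-l)) - ..`. All errors are `O(X^(1-c/8))`. So `SD (c/16) C x0`. Uses: EV.I3, EV.I4, EV.I2 (import them). -/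
def QA_stmt : Prop := (∃ c : ℝ, 0 < c ∧ ∀ᶠ N : ℕ in atTop,
    ∑ n ∈ Finset.range (N + 1), ((H n : ℝ) - G n) ≤ (N : ℝ) ^ (5 / 2 - c)) →
  ∃ c C x0 : ℝ, Pool.Agent.EV.SD c C x0

/-- GP (medium). For a prime `p ∈ (X, 2X]` with gap `g = nxt p - p` (`nxt p ≤ 2p` by Bertrand, so `g ≤ 2X`) and `1 ≤ h < g`: for `x ∈ (p, p+g-h)` there is no prime in `(x, x+h]`, so `θ(x+h) = θ(x)`, `x` is in the set of `Bad` (for `X` or `2X`, `η = X^(-c) < 1`, resp. `(2X)^(-c)`). These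
intervals are disjoint for different `p`. For `h = 2^j ≤ X`: `∑_{2h < g ≤ 4h} g/2 ≤ Bad X h + Bad (2X) h ≤ 2 (2X)^(b+ε)/h`, so `∑_{2h < g ≤ 4h} g² ≤ 4h ∑ g ≤ 16 (2X)^(b+ε)`. Sum over `j ≤ 2 log X`, and `g ≤ 2`: at most `4 · 2X`. So `∑_{X < p ≤ 2X} g² ≤ 50 (log X) (2X)^(b+ε)` for
`X ≥ X1`; dyadic sum over `X` (the primes below `X1` give a constant). -/
def GP_stmt : Prop := ∀ b : ℝ, 1 ≤ b → (∀ ε : ℝ, 0 < ε → ∃ c : ℝ, 0 < c ∧ ∀ᶠ X : ℝ in atTop,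
    ∀ h : ℝ, 1 ≤ h → h ≤ X → Bad X h (X ^ (-c)) ≤ ENNReal.ofReal (X ^ (b + ε) / h)) →
  ∀ ε : ℝ, 0 < ε → ∀ᶠ X : ℝ in atTop,
    ∑ p ∈ (Finset.Icc 1 ⌊X⌋₊).filter Nat.Prime, ((nxt p : ℝ) - p) ^ 2 ≤ X ^ (b + ε)

/-- the final theorem -/
def MAIN_stmt : Prop := ∀ κ : ℝ, 1 ≤ κ → κ < 3 / 2 → Avg κ →
  (∃ t : ℝ, t < 1 ∧ ∀ s : ℂ, t < s.re → riemannZeta s ≠ 0) ∧
  (∀ ε : ℝ, 0 < ε → ∃ c : ℝ, 0 < c ∧ ∀ᶠ X : ℝ in atTop,
    ∀ h : ℝ, 1 ≤ h → h ≤ X → Bad X h (X ^ (-c)) ≤ ENNReal.ofReal (X ^ (2 * κ - 1 + ε) / h)) ∧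
  (∀ ε : ℝ, 0 < ε → ∀ᶠ X : ℝ in atTop,
    ∑ p ∈ (Finset.Icc 1 ⌊X⌋₊).filter Nat.Prime, ((nxt p : ℝ) - p) ^ 2 ≤ X ^ (2 * κ - 1 + ε))

end Pool.Agent.AG
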